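import Pool.Agent.CPG.Top
import Pool.Agent.CPG.LIN
import Pool.Agent.CPG.DPN
import Pool.Agent.CPG.TWO
import Pool.Agent.CPG.J1
import Pool.Agent.CPG.JNT
import Pool.Agent.CPG.PBL
import Pool.Agent.CPG.P1
import Pool.Agent.CPG.P2
import Pool.Agent.CPG.SMP
import Pool.Agent.CPG.OFF
import Pool.Agent.CPG.HNT
import Pool.Agent.CPG.COV
import Pool.Agent.CPG.WTS
import Pool.Agent.CPG.ABS
import Pool.Agent.CPG.LEN
import Pool.Agent.CPG.LAY
import Pool.Agent.CPG.INJ
import Pool.Agent.CPG.NDE
import Pool.Agent.CPG.ACB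
import Pool.Agent.CPG.ACC
import Pool.Agent.CPG.PRA
import Pool.Agent.CPG.PRL
import Pool.Agent.CPG.PRG
import Pool.Agent.CPG.PRNM
import Pool.Agent.CPG.PRT
import Pool.Agent.CPG.PRF
import Pool.Agent.NQ2.PEB
import Pool.Agent.NQ2.DIG
import Pool.Agent.NQ2.MACH
import Pool.Agent.NQ2.DFAC
import Pool.Agent.RLT.RTP

/-!
Problem MP_5e85fc_lc. One language, accepted by a real-time one-way deterministic pushdown
automaton with one head, and, for every `ε > 0`, by no two-way multihead finite automaton,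
deterministic or probabilistic, with any number of heads, in time `n ^ (3 / 2 - ε)`.
-/

set_option autoImplicit false

namespace Pool.Agent.Results.MP_5e85fc_lc.ContextFreePowerGap

open Pool.Agent.Heads Filter Asymptotics

/-- The finite automaton `M` accepts `w` in at most `t` steps: some computation on `w` is in an
accepting state after at most `t` steps. -/
def AcceptsIn {α : Type} {k : ℕ} (M : FA α k) (w : List α) (t : ℕ) : Prop :=
  ∃ i ≤ t, ∃ c, ReachN (M.Step w) (M.start, fun _ => 0) i c ∧ c.1 ∈ M.accept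

/-- `L` is accepted by a two-way deterministic multihead finite automaton in time `f`: every
word `w` in `L` is accepted in at most `f |w|` steps. -/
def DFATime {α : Type} (f : ℕ → ℝ) (L : Set (List α)) : Prop :=
  ∃ (k : ℕ) (M : FA α k), M.Det ∧ M.lang = L ∧
    ∀ w ∈ L, ∃ t : ℕ, (t : ℝ) ≤ f w.length ∧ AcceptsIn M w t

/-- A two-way probabilistic finite automaton with `k` heads. In each step a random element of the
finite set `R` is drawn (uniformly, independently of the other steps); it, the state and the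
scanned symbols determine the next state and the moves of the heads (`none`: no step). -/
structure PFA (α : Type) (k : ℕ) where
  Q : Type
  R : Type
  finQ : Finite Q
  finR : Finite R
  neR : Nonempty R
  start : Q
  accept : Set Q
  δ : R → Q → (Fin k → Sym α) → Option (Q × (Fin k → Dir))

/-- The state and the positions of the heads after `i` steps on the word `w` (`i ≤ t`), if the
random elements of the first `t` steps are `r 0, …, r (t - 1)`. All heads start on the left
endmarker. -/
def PFA.conf {α : Type} {k : ℕ} (M : PFA α k) (w : List α) {t : ℕ} (r : Fin t → M.R) :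
    ℕ → Option (M.Q × (Fin k → ℕ))
  | 0 => some (M.start, fun _ => 0)
  | i + 1 => if h : i < t then (M.conf w r i).bind fun c =>
      (M.δ (r ⟨i, h⟩) c.1 fun a => tape w (c.2 a)).map fun qd =>
        (qd.1, fun a => move (w.length + 1) (c.2 a) (qd.2 a)) else none

/-- With the random elements `r`, the automaton is in an accepting state after at most `t`
steps. -/
def PFA.Acc {α : Type} {k : ℕ} (M : PFA α k) (w : List α) {t : ℕ} (r : Fin t → M.R) : Prop :=
  ∃ i ≤ t, ∃ c, M.conf w r i = some c ∧ c.1 ∈ M.accept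

/-- The probability that `M` accepts `w` in at most `t` steps. -/
noncomputable def PFA.pr {α : Type} {k : ℕ} (M : PFA α k) (w : List α) (t : ℕ) : ℝ :=
  (Nat.card {r : Fin t → M.R // M.Acc w r} : ℝ) / (Nat.card M.R : ℝ) ^ t

open scoped Classical in
/-- The probability that `M` is right about the membership of `w` in `L` in time `t`: the
probability that `M` accepts `w` in at most `t` steps if `w` is in `L`, and the probability that
it does not if `w` is not in `L`. -/
noncomputable def PFA.right {α : Type} {k : ℕ} (M : PFA α k) (L : Set (List α)) (w : List α)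
    (t : ℕ) : ℝ := if w ∈ L then M.pr w t else 1 - M.pr w t

/-- `L` is accepted by a two-way probabilistic multihead finite automaton in time `f` with error
at most `1 / 3`: the probability that it accepts `w` in at most `f |w|` steps is at least `2 / 3`
if `w` is in `L`, and at most `1 / 3` otherwise. -/
def PFATime {α : Type} (f : ℕ → ℝ) (L : Set (List α)) : Prop :=
  ∃ (k : ℕ) (M : PFA α k), ∀ w : List α,
    (w ∈ L → 2 / 3 ≤ M.pr w ⌊f w.length⌋₊) ∧ (w ∉ L → M.pr w ⌊f w.length⌋₊ ≤ 1 / 3)

/-! ### The library versions of the definitions -/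

/-- The same automaton. -/
def PFA.lib {α : Type} {k : ℕ} (M : PFA α k) : Pool.Agent.NQ2.RFA α k :=
  ⟨M.Q, M.R, M.finQ, M.finR, M.neR, M.start, M.accept, M.δ⟩

lemma lib_conf {α : Type} {k : ℕ} (M : PFA α k) (w : List α) {t : ℕ} (r : Fin t → M.R) (i : ℕ) :
    M.lib.conf w r i = M.conf w r i := by
  induction i with
  | zero => rfl
  | succ i ih =>
    unfold PFA.conf
    rw [← ih]
    rfl

lemma lib_acc {α : Type} {k : ℕ} (M : PFA α k) (w : List α) {t : ℕ} (r : Fin t → M.R) :
    M.lib.Acc w r ↔ M.Acc w r := by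
  constructor
  · rintro ⟨i, hi, c, h1, h2⟩
    exact ⟨i, hi, c, by rw [← lib_conf]; exact h1, h2⟩
  · rintro ⟨i, hi, c, h1, h2⟩
    exact ⟨i, hi, c, by rw [lib_conf]; exact h1, h2⟩

lemma lib_pr {α : Type} {k : ℕ} (M : PFA α k) (w : List α) (t : ℕ) :
    M.lib.pr w t = M.pr w t := by
  unfold PFA.pr Pool.Agent.NQ2.RFA.pr
  have e : Nat.card {r : Fin t → M.R // M.Acc w r} =
      Nat.card {r : Fin t → M.lib.R // M.lib.Acc w r} :=
    Nat.card_congr (Equiv.subtypeEquivRight fun r => (lib_acc M w r).symm)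
  rw [e]
  rfl

lemma lib_right {α : Type} {k : ℕ} (M : PFA α k) (L : Set (List α)) (w : List α) (t : ℕ) :
    M.lib.right L w t = M.right L w t := by
  unfold PFA.right Pool.Agent.NQ2.RFA.right
  rw [lib_pr]

lemma lib_low {α : Type} {L : Set (List α)} {H : Finset (List α)} {k t : ℕ} {P : ℕ → Prop}
    {b : ℝ} (h : Pool.Agent.CPG.AvgLow L H k t P b) :
    (∀ M : FA α k, M.Det → P (Nat.card M.Q) →
      ({w | w ∈ H ∧ (w ∈ L ↔ AcceptsIn M w t)}.ncard : ℝ) ≤ b * H.card) ∧
    (∀ M : PFA α k, P (Nat.card M.Q) → ∑ w ∈ H, M.right L w t ≤ b * H.card) := by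
  refine ⟨h.1, fun M hM => ?_⟩
  have := h.2 M.lib hM
  rw [Finset.sum_congr rfl fun w _ => lib_right M L w t] at this
  exact this

open Pool.Agent.CPG in
/-- The library form of the theorem. -/
theorem all :
    ∃ (α : Type) (_ : Finite α) (L : Set (List α)),
      (∃ P : PDA α 1, P.Det ∧ P.lang = L ∧
        ∀ w t c, P.Reach w t c → c.pos 0 = min t (w.length + 1) ∧ t ≤ w.length + 2) ∧
      LowA L ∧
      (∀ (k : ℕ) (f : ℕ → ℝ) (e : ℝ), 0 < e →
        (f =O[atTop] fun n : ℕ => (n : ℝ) ^ (3 / 2 - e)) → ¬ DTime k f L ∧ ¬ RTime k f L) := by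
  have hJ1 := t_J1 (t_TWO t_LIN) t_DPN
  have hJNT := t_JNT hJ1 t_DPN
  have hHNT := t_HNT hJNT t_OFF
  have hCOV := t_COV (t_PBL Pool.Agent.NQ2.t_PEB) t_P1 t_P2 t_DPN
  have hABS := t_ABS hJ1 t_P1 t_SMP hHNT hCOV t_WTS
  have hPRL := t_PRL t_PRA t_NDE
  have hPRG := t_PRG t_PRA t_NDE
  exact top hABS Pool.Agent.NQ2.t_GMACH Pool.Agent.NQ2.t_DFAC t_LEN t_LAY
    (t_INJ t_LEN Pool.Agent.NQ2.t_DIG)
    (t_PRF t_PRA hPRL hPRG (t_PRN t_PRA) (t_PRT t_PRA))
    (t_ACC (t_ACB Pool.Agent.NQ2.t_DIG) Pool.Agent.NQ2.t_DIG) Pool.Agent.RLT.t_RTP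

/-- There is a language `L` over a finite alphabet with the following properties.
(1) `L` is accepted by a deterministic one-way pushdown automaton with one head; it moves right
at every step until it is on the right endmarker, and makes at most `|w| + 2` steps.
(2) For every `ε > 0` there is `c > 0` such that for all large `n` there is a nonempty set `H` of
words of length `n` with the following property. Let `M` be a two-way finite automaton with any
number `k` of heads and with state set `Q`, `|Q| (n + 2) ^ k ≤ exp (c * log² n / log log n)` (for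
instance at most `c' log n / log log n` heads and `n ^ (c' log n / log log n)` states, for a small
`c'`; `M` may depend on `n`), and let `t ≤ n ^ (3 / 2 - ε)`. If `M` is deterministic, then at most
`(1 / 2 + n ^ (-c)) * |H|` words `w` in `H` satisfy: `w` is in `L` if and only if `M` accepts `w`
in at most `t` steps. If `M` is probabilistic, then the average over the words of `H` of the
probability that `M` is right in time `t` is at most `1 / 2 + n ^ (-c)`.
(3) So, if `f(n) = O(n ^ (3 / 2 - ε))` for some `ε > 0`, then `L` is not accepted in time `f` by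
any two-way multihead finite automaton, deterministic or probabilistic with error at most
`1 / 3`. -/
theorem result : ∃ (α : Type) (_ : Finite α) (L : Set (List α)),
    (∃ M : PDA α 1, M.Det ∧ M.lang = L ∧
      ∀ w t c, M.Reach w t c → c.pos 0 = min t (w.length + 1) ∧ t ≤ w.length + 2) ∧
    (∀ ε : ℝ, 0 < ε → ∃ c : ℝ, 0 < c ∧ ∀ᶠ n : ℕ in atTop,
      ∃ H : Finset (List α), H.Nonempty ∧ (∀ w ∈ H, w.length = n) ∧
        ∀ k t : ℕ, (t : ℝ) ≤ (n : ℝ) ^ (3 / 2 - ε) →
          (∀ M : FA α k, M.Det → (Nat.card M.Q : ℝ) * ((n : ℝ) + 2) ^ k ≤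
              Real.exp (c * (Real.log n) ^ 2 / Real.log (Real.log n)) →
            ({w | w ∈ H ∧ (w ∈ L ↔ AcceptsIn M w t)}.ncard : ℝ) ≤
              (1 / 2 + (n : ℝ) ^ (-c)) * H.card) ∧
          (∀ M : PFA α k, (Nat.card M.Q : ℝ) * ((n : ℝ) + 2) ^ k ≤
              Real.exp (c * (Real.log n) ^ 2 / Real.log (Real.log n)) →
            ∑ w ∈ H, M.right L w t ≤ (1 / 2 + (n : ℝ) ^ (-c)) * H.card)) ∧
    (∀ (f : ℕ → ℝ) (ε : ℝ), 0 < ε → (f =O[atTop] fun n : ℕ => (n : ℝ) ^ (3 / 2 - ε)) →
      ¬ DFATime f L ∧ ¬ PFATime f L) := by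
  obtain ⟨α, hα, L, g1, g2, g4⟩ := all
  refine ⟨α, hα, L, g1, fun ε hε => ?_, fun f ε hε hf => ⟨?_, ?_⟩⟩
  · obtain ⟨c, hc, h⟩ := g2 ε hε
    refine ⟨c, hc, ?_⟩
    filter_upwards [h] with n hn
    obtain ⟨H, hne, hlen, hH⟩ := hn
    exact ⟨H, hne, hlen, fun k t ht => lib_low (hH k t ht)⟩
  · rintro ⟨k, M, hM⟩
    exact (g4 k f ε hε hf).1 ⟨M, hM⟩
  · rintro ⟨k, M, hM⟩
    refine (g4 k f ε hε hf).2 ⟨M.lib, fun w => ?_⟩
    obtain ⟨a1, a2⟩ := hM w
    rw [← lib_pr] at a1 a2
    exact ⟨a1, a2⟩

end Pool.Agent.Results.MP_5e85fc_lc.ContextFreePowerGap
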