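import Pool.Agent.NDH.Main
import Pool.Agent.NDH.HED
import Pool.Agent.NDH.Sens

/-!
Problem MP_5e85fc_lc. For every `k ≥ 1` two-way deterministic pushdown automata with `k + 1` heads
accept all languages of two-way nondeterministic or alternating finite automata with `k` heads, sensing
or not, and more than the nondeterministic ones; and some binary language is accepted by a two-way
deterministic pushdown automaton with only `k` heads, but it is not a Boolean combination of languages
of two-way nondeterministic finite automata with `k` heads, not even if the heads of the finite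
automata sense each other.
-/

set_option autoImplicit false

namespace Pool.Agent.Results.MP_5e85fc_lc.DeterministicStore

open Pool.Agent.Heads Pool.Agent.NDH

/-- A two-way nondeterministic finite automaton over the alphabet `{0, 1}` with `k` sensing heads: a
step depends on the state, on the `k` scanned symbols and, for all `i` and `j`, on whether the heads
`i` and `j` are on the same cell. -/
structure SensingFA (k : ℕ) where
  Q : Type
  finQ : Finite Q
  start : Q
  accept : Set Q
  δ : Q → (Fin k → Sym (Fin 2)) → (Fin k → Fin k → Bool) → Set (Q × (Fin k → Dir))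

/-- One step on the word `w`, between pairs (state, head positions). -/
def SensingFA.Step {k : ℕ} (M : SensingFA k) (w : List (Fin 2)) (c c' : M.Q × (Fin k → ℕ)) :
    Prop :=
  ∃ t ∈ M.δ c.1 (fun i => tape w (c.2 i)) (fun i j => decide (c.2 i = c.2 j)),
    c' = (t.1, fun i => move (w.length + 1) (c.2 i) (t.2 i))

/-- The language accepted by `M`: all heads start on the left endmarker; a word is accepted if some
computation reaches an accepting state. -/
def SensingFA.lang {k : ℕ} (M : SensingFA k) : Set (List (Fin 2)) :=
  {w | ∃ c, Relation.ReflTransGen (M.Step w) (M.start, fun _ => 0) c ∧ c.1 ∈ M.accept}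

/-- For every `k ≥ 1`:
(1) Every language, over any alphabet, of a two-way nondeterministic `k`-head finite automaton, or even
of a two-way alternating finite automaton with `k` sensing heads, is accepted by a two-way deterministic
pushdown automaton with `k + 1` heads.
(2) For nondeterministic automata the converse fails: some language over `{0, 1}` is accepted by a
two-way deterministic pushdown automaton with `k + 1` heads, but by no two-way nondeterministic `k`-head
finite automaton, sensing or not.
(3) There is a language over `{0, 1}` that is accepted by a two-way deterministic `k`-head pushdown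
automaton `M`, and that is no finite Boolean combination of languages accepted by two-way
nondeterministic `k`-head finite automata `A i`, nor of languages accepted by two-way nondeterministic
finite automata with `k` sensing heads: whether `w` is accepted by `M` is not determined by the set of
the `i` for which `w` is accepted by `A i`. -/
theorem result : ∀ k : ℕ, 1 ≤ k →
    ((∀ (α : Type) (A : FA α k), ∃ P : PDA α (k + 1), P.Det ∧ P.lang = A.lang) ∧
      ∀ (α : Type) (A : SensingAFA α k), ∃ P : PDA α (k + 1), P.Det ∧ P.lang = A.lang) ∧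
    (∃ P : PDA (Fin 2) (k + 1), P.Det ∧ (∀ A : FA (Fin 2) k, A.lang ≠ P.lang) ∧
      ∀ A : SensingFA k, A.lang ≠ P.lang) ∧
    ∃ M : PDA (Fin 2) k, M.Det ∧
      (∀ (ι : Type) [Finite ι] (A : ι → FA (Fin 2) k) (𝓕 : Set (Set ι)),
        M.lang ≠ {w | {i | w ∈ (A i).lang} ∈ 𝓕}) ∧
      ∀ (ι : Type) [Finite ι] (A : ι → SensingFA k) (𝓕 : Set (Set ι)),
        M.lang ≠ {w | {i | w ∈ (A i).lang} ∈ 𝓕} := by
  intro k hk
  have key : ∃ M : PDA (Fin 2) k, M.Det ∧
      (∀ (ι : Type) [Finite ι] (A : ι → FA (Fin 2) k) (𝓕 : Set (Set ι)),
        M.lang ≠ {w | {i | w ∈ (A i).lang} ∈ 𝓕}) ∧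
      ∀ (ι : Type) [Finite ι] (A : ι → SensingFA k) (𝓕 : Set (Set ι)),
        M.lang ≠ {w | {i | w ∈ (A i).lang} ∈ 𝓕} := by
    obtain ⟨M, hD, hM⟩ := Pool.Agent.NDH.maind k hk
    refine ⟨M, hD, fun ι _ A 𝓕 h => ?_, fun ι _ A 𝓕 h => ?_⟩
    · exact hM ⟨ι, inferInstance, fun i => (A i).lang, 𝓕,
        fun i => ⟨⟨(A i).Q, (A i).finQ, (A i).start, (A i).accept, fun q s _ => (A i).δ q s⟩, rfl⟩,
        fun w => by rw [h]; rfl⟩
    · exact hM ⟨ι, inferInstance, fun i => (A i).lang, 𝓕,
        fun i => ⟨⟨(A i).Q, (A i).finQ, (A i).start, (A i).accept, (A i).δ⟩, rfl⟩,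
        fun w => by rw [h]; rfl⟩
  refine ⟨⟨fun α A => Pool.Agent.AFH.finiteAut α k A, fun α A => Pool.Agent.NDH.sensing α k A⟩,
    ?_, key⟩
  obtain ⟨M, hD, hM, hM'⟩ := key
  obtain ⟨P, hP, hPL⟩ := Pool.Agent.NDH.t_HED (Fin 2) k M
  refine ⟨P, hP hD, fun A h => hM Unit (fun _ => A) {s | () ∈ s} ?_,
    fun A h => hM' Unit (fun _ => A) {s | () ∈ s} ?_⟩
  · rw [← hPL, ← h]
    rfl
  · rw [← hPL, ← h]
    rfl

end Pool.Agent.Results.MP_5e85fc_lc.DeterministicStore
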