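import Pool.Agent.NPB.Main

/-!
Problem MP_5e85fc_lc. For every `k` some binary language is accepted by a two-way nondeterministic
pushdown automaton with `k` heads, but it is not a Boolean combination of languages of two-way
nondeterministic finite automata with `2k` heads, not even if the heads of the finite automata sense
each other.
-/

set_option autoImplicit false

namespace Pool.Agent.Results.MP_5e85fc_lc.StackBeatsTwiceAsManyHeads

open Pool.Agent.Heads

/-- A two-way nondeterministic finite automaton over the alphabet `{0, 1}` with `k` sensing heads: a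
step depends on the state, on the `k` scanned symbols and, for all `i` and `j`, on whether the heads
`i` and `j` are on the same cell. -/
structure SensingFA (k : ℕ) where
  Q : Type
  finQ : Finite Q
  start : Q
  accept : Set Q
  δ : Q → (Fin k → Sym (Fin 2)) → (Fin k → Fin k → Bool) → Set (Q × (Fin k → Dir))

/-- One step on the word `w`, between pairs (state, head positions). -/
def SensingFA.Step {k : ℕ} (M : SensingFA k) (w : List (Fin 2)) (c c' : M.Q × (Fin k → ℕ)) :
    Prop :=
  ∃ t ∈ M.δ c.1 (fun i => tape w (c.2 i)) (fun i j => decide (c.2 i = c.2 j)),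
    c' = (t.1, fun i => move (w.length + 1) (c.2 i) (t.2 i))

/-- The language accepted by `M`: all heads start on the left endmarker; a word is accepted if some
computation reaches an accepting state. -/
def SensingFA.lang {k : ℕ} (M : SensingFA k) : Set (List (Fin 2)) :=
  {w | ∃ c, Relation.ReflTransGen (M.Step w) (M.start, fun _ => 0) c ∧ c.1 ∈ M.accept}

/-- For every `k ≥ 1` there is a language over `{0, 1}` that is accepted by a two-way nondeterministic
`k`-head pushdown automaton `M`, and that is no finite Boolean combination of languages accepted by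
two-way nondeterministic `2k`-head finite automata `A i`, nor of languages accepted by two-way
nondeterministic finite automata with `2k` sensing heads: whether `w` is accepted by `M` is not
determined by the set of the `i` for which `w` is accepted by `A i`. -/
theorem result : ∀ k : ℕ, 1 ≤ k → ∃ M : PDA (Fin 2) k,
    (∀ (ι : Type) [Finite ι] (A : ι → FA (Fin 2) (2 * k)) (𝓕 : Set (Set ι)),
      M.lang ≠ {w | {i | w ∈ (A i).lang} ∈ 𝓕}) ∧
    ∀ (ι : Type) [Finite ι] (A : ι → SensingFA (2 * k)) (𝓕 : Set (Set ι)),
      M.lang ≠ {w | {i | w ∈ (A i).lang} ∈ 𝓕} := by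
  intro k hk
  obtain ⟨M, hM⟩ := Pool.Agent.NPB.t1x k hk
  refine ⟨M, fun ι _ A 𝓕 h => ?_, fun ι _ A 𝓕 h => ?_⟩
  · exact hM ⟨ι, inferInstance, fun i => (A i).lang, 𝓕,
      fun i => ⟨⟨(A i).Q, (A i).finQ, (A i).start, (A i).accept, fun q s _ => (A i).δ q s⟩, rfl⟩,
      fun w => by rw [h]; rfl⟩
  · exact hM ⟨ι, inferInstance, fun i => (A i).lang, 𝓕,
      fun i => ⟨⟨(A i).Q, (A i).finQ, (A i).start, (A i).accept, (A i).δ⟩, rfl⟩,
      fun w => by rw [h]; rfl⟩

end Pool.Agent.Results.MP_5e85fc_lc.StackBeatsTwiceAsManyHeads
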