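import Pool.Agent.THX.Top
import Pool.Agent.THX.PIG
import Pool.Agent.THX.LOP
import Pool.Agent.THX.SIM
import Pool.Agent.THX.EXT
import Pool.Agent.THX.EXF
import Pool.Agent.THX.JMP
import Pool.Agent.THX.RUN
import Pool.Agent.THX.CA
import Pool.Agent.THX.LCK
import Pool.Agent.THX.CB
import Pool.Agent.THX.CC
import Pool.Agent.THX.EQV
import Pool.Agent.THX.INF
import Pool.Agent.THX.DGT
import Pool.Agent.THX.CNT
import Pool.Agent.THX.PAR
import Pool.Agent.THX.FAC
import Pool.Agent.THX.PDX
import Pool.Agent.THX.PFM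
import Pool.Agent.THX.PDG
import Pool.Agent.THX.PSR
import Pool.Agent.THX.PLG
import Pool.Agent.THX.TRI
import Pool.Agent.THX.AVG

/-!
Problem MP_5e85fc_lc. A language accepted in linear time by a two-way deterministic pushdown
automaton with one head, and by no two-way deterministic finite automaton with two heads, not even
on average; three heads suffice.
-/

set_option autoImplicit false

namespace Pool.Agent.Results.MP_5e85fc_lc.StackBeatsTwoHeads

open Pool.Agent.Heads

/-- The language `L` over the alphabet `{0, 1, 2}`: the words `x 2 0^N` with `x` in `{0, 1}*` such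
that `2 x 2` is a factor (a contiguous subword) of the ternary notation of `N`, the most
significant digit first (`Nat.digits 3 N` is the list of the ternary digits of `N`, the least
significant one first, without leading zeros; it is empty for `N = 0`). -/
def L : Set (List (Fin 3)) :=
  {w | ∃ (x : List (Fin 3)) (N : ℕ), (∀ a ∈ x, a ≠ 2) ∧ w = x ++ 2 :: List.replicate N 0 ∧
    (2 :: (x.map Fin.val ++ [2])) <:+: (Nat.digits 3 N).reverse}

/-- A two-way deterministic finite automaton with two sensing heads: a step depends on the state,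
on the two scanned symbols and on whether the two heads are on the same cell (`none`: no step). -/
structure SensingFA where
  Q : Type
  finQ : Finite Q
  start : Q
  accept : Set Q
  δ : Q → (Fin 2 → Sym (Fin 3)) → Bool → Option (Q × (Fin 2 → Dir))

/-- One step on the word `w`, between pairs (state, head positions). -/
def SensingFA.Step (M : SensingFA) (w : List (Fin 3)) (c c' : M.Q × (Fin 2 → ℕ)) : Prop :=
  ∃ t, M.δ c.1 (fun i => tape w (c.2 i)) (decide (c.2 0 = c.2 1)) = some t ∧
    c' = (t.1, fun i => move (w.length + 1) (c.2 i) (t.2 i))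

/-- The language accepted by `M`: both heads start on the left endmarker; a word is accepted if
the computation reaches an accepting state. -/
def SensingFA.lang (M : SensingFA) : Set (List (Fin 3)) :=
  {w | ∃ c, Relation.ReflTransGen (M.Step w) (M.start, fun _ => 0) c ∧ c.1 ∈ M.accept}

open Pool.Agent.THX in
/-- The library form of the theorem. -/
theorem all :
    (∃ M : PDA (Fin 3) 1, M.Det ∧ M.lang = LL ∧
      ∀ w t c, M.Reach w t c → t ≤ 20 * (w.length + 1)) ∧
    (∀ M : FA (Fin 3) 2, M.Det → M.lang ≠ LL) ∧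
    ∃ C : ℕ, ∀ M : SA, ∃ w : List (Fin 3), w.length ≤ 2 ^ (C * Nat.card M.Q ^ 17) ∧
      ¬ (w ∈ M.lang ↔ w ∈ LL) := by
  have hEXT := t_EXT t_PIG
  have hEXF := t_EXF hEXT
  have hRUN := t_RUN (t_JMP t_SIM hEXF)
  have hEQV := t_EQV (t_CA hEXF hRUN) (t_CB t_LCK hEXT t_SIM) (t_CC (t_LOP t_PIG) t_SIM)
  exact top (t_CNT hEQV (t_DGT t_INF)) t_PAR t_FAC (t_PLG t_PDX t_PFM t_PDG t_PSR)

/-- The word `x 2 0^N` for a binary word `x` of length `l`. -/
def word {l : ℕ} (x : Fin l → Bool) (N : ℕ) : List (Fin 3) :=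
  (List.ofFn fun i => if x i then 1 else 0) ++ 2 :: List.replicate N 0

/-- (1) `L` is accepted by a two-way deterministic pushdown automaton with one head, each of whose
computations on a word `w` has at most `20 * (|w| + 1)` steps.
(2) `L` is accepted by a two-way deterministic finite automaton with three heads.
(3) `L` is not accepted by any two-way deterministic finite automaton with two heads.
(4) There is a constant `C` such that every two-way deterministic finite automaton with two
sensing heads and `s` states is wrong about some word of length at most `2 ^ (C * s ^ 17)`.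
(5) For `l ≥ 10` there are numbers `N A ≤ 2 ^ (4 ^ l)`, one for every set `A` of binary words of
length `l`, such that `x 2 0^(N A)` is in `L` if and only if `x` is in `A`, and every automaton as in
(4) with `s` states, `l ^ (50 * s) ≤ 2 ^ l`, is right about at most the fraction
`1 / 2 + 2 ^ (- l / 3)` of these `2 ^ l * 2 ^ (2 ^ l)` words. -/
theorem result :
    (∃ M : PDA (Fin 3) 1, M.Det ∧ M.lang = L ∧
      ∀ w t c, M.Reach w t c → t ≤ 20 * (w.length + 1)) ∧
    (∃ M : FA (Fin 3) 3, M.Det ∧ M.lang = L) ∧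
    (∀ M : FA (Fin 3) 2, M.Det → M.lang ≠ L) ∧
    (∃ C : ℕ, ∀ M : SensingFA, ∃ w : List (Fin 3), w.length ≤ 2 ^ (C * Nat.card M.Q ^ 17) ∧
      ¬ (w ∈ M.lang ↔ w ∈ L)) ∧
    ∀ l : ℕ, 10 ≤ l → ∃ N : Finset (Fin l → Bool) → ℕ,
      (∀ A, N A ≤ 2 ^ (4 ^ l)) ∧
      (∀ A x, word x (N A) ∈ L ↔ x ∈ A) ∧
      ∀ M : SensingFA, l ^ (50 * Nat.card M.Q) ≤ 2 ^ l →
        (Nat.card {p : (Fin l → Bool) × Finset (Fin l → Bool) //
          (word p.1 (N p.2) ∈ M.lang ↔ word p.1 (N p.2) ∈ L)} : ℝ) ≤
            (1 / 2 + (2 : ℝ) ^ (-(l : ℝ) / 3)) * (2 ^ l * 2 ^ (2 ^ l)) := by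
  obtain ⟨h1, h2, C, hC⟩ := all
  refine ⟨h1, Pool.Agent.THX.t_TRI, h2,
    ⟨C, fun M => hC ⟨M.Q, M.finQ, M.start, M.accept, M.δ⟩⟩, fun l hl => ?_⟩
  obtain ⟨N, hN, hA, hM⟩ := Pool.Agent.THX.t_AVG l hl
  exact ⟨N, hN, hA, fun M h => hM ⟨M.Q, M.finQ, M.start, M.accept, M.δ⟩ h⟩

end Pool.Agent.Results.MP_5e85fc_lc.StackBeatsTwoHeads
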